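import Pool.Agent.H23.QCF.Lib

/-!
# Row KB6C of the board qcf_modules: singletons are universal (MP_63b6b1_nt)
-/

set_option autoImplicit false

open NumberField IsDedekindDomain Pool.Agent.H23.QCF
open Pool.Agent.H32.QC (Sol hil Iso FPl Pl ic hs sqAt HasseConic ProdFormula Prescribed)

namespace Pool.Agent.H13.QCF

theorem hil_congr {L : Type*} [Field L] {a b c d : L} (h : Sol a b ↔ Sol c d) :
    hil a b = hil c d := by
  unfold hil
  by_cases hs : Sol a b
  · rw [if_pos hs, if_pos (h.1 hs)]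
  · rw [if_neg hs, if_neg fun h' => hs (h.2 h')]

theorem pf_B6C (h5 : T_B5) (hext : T_EXT) (hsig : T_SIG) (hslot : T_SLOT) (hlsl : T_LSL)
    (hfun : T_FUN) : T_B6C := by
  intro K _ _ p t t' ht ht' hp hPT
  obtain ⟨u, hu⟩ := hPT
  have hns : ¬ IsSquare t' := not_isSquare_of_not_sqAt hp
  obtain ⟨E, _, _, _, s, hQ⟩ := hext K t' hns
  obtain ⟨σ, -, -, -, -, hform, -⟩ := hsig K E t' s hQ
  have hE : Sol (algebraMap K E (u : K)) (algebraMap K E t) := by
    refine h5 E _ _ ?_ ?_ fun w => ?_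
    · exact fun h => u.ne_zero ((map_eq_zero _).1 h)
    · exact fun h => ht ((map_eq_zero _).1 h)
    · by_cases hw : sqAt (und w : Pl K) t'
      · have hne : (und w : Pl K) ≠ p := fun h => hp (h ▸ hw)
        refine hfun K E w _ _ ?_
        rw [← hs_ne_neg_iff]
        intro h
        have h2 : (und w : Pl K) ∈ PP (u : K) t := h
        rw [hu] at h2
        exact hne h2
      · exact hlsl K E t' s hQ w hw _ _ u.ne_zero ht
  obtain ⟨z, hz, hz2⟩ := hslot K E t' s (u : K) t hns hQ.sq hform u.ne_zero ht hE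
  refine ⟨Units.mk0 z hz, ?_⟩
  rw [← hu]
  ext p2
  have h3 : hs p2 (u : K) t = hs p2 z t' := by
    cases p2 with
    | inl v => exact hil_congr (hz2 (v.adicCompletion K) (ic v))
    | inr φ => exact hil_congr (hz2 ℝ φ)
  show hs p2 z t' = -1 ↔ hs p2 (u : K) t = -1
  rw [h3]

end Pool.Agent.H13.QCF
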